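import Pool.Agent.L0h16.VO.Defs

/-!
# Module BAS: elementary inequalities for positive definite forms
-/

set_option autoImplicit false

open scoped Matrix

namespace Pool.Agent.L0h69.VO

open Pool.Agent.L0h16.VO Filter Topology

variable {m : ℕ}

lemma pr_sq (Q : Matrix (Fin m) (Fin m) ℝ) (v : Fin m → ℝ) : pr Q (sq v) = qf Q v := by
  unfold pr Pool.Agent.L0h16.VO.sq qf
  refine Finset.sum_congr rfl fun i _ => Finset.sum_congr rfl fun j _ => ?_
  ring

lemma pr_add (Q x y : Matrix (Fin m) (Fin m) ℝ) : pr Q (x + y) = pr Q x + pr Q y := by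
  unfold pr
  rw [← Finset.sum_add_distrib]
  refine Finset.sum_congr rfl fun i _ => ?_
  rw [← Finset.sum_add_distrib]
  refine Finset.sum_congr rfl fun j _ => ?_
  rw [Matrix.add_apply]
  ring

lemma pr_zero (Q : Matrix (Fin m) (Fin m) ℝ) : pr Q 0 = 0 := by
  unfold pr
  simp

lemma pr_sum {ι : Type} (s : Finset ι) (Q : Matrix (Fin m) (Fin m) ℝ)
    (x : ι → Matrix (Fin m) (Fin m) ℝ) : pr Q (∑ k ∈ s, x k) = ∑ k ∈ s, pr Q (x k) := by
  classical
  induction s using Finset.induction_on with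
  | empty => simp [pr_zero]
  | insert a s ha ih => rw [Finset.sum_insert ha, Finset.sum_insert ha, pr_add, ih]

lemma qf_eq_dot (Q : Matrix (Fin m) (Fin m) ℝ) (v : Fin m → ℝ) : v ⬝ᵥ (Q *ᵥ v) = qf Q v := by
  unfold qf
  simp only [dotProduct, Matrix.mulVec, Finset.mul_sum]
  refine Finset.sum_congr rfl fun i _ => Finset.sum_congr rfl fun j _ => ?_
  ring

/-- semidefinite matrices are sums of squares -/
lemma exists_sum_sq {x : Matrix (Fin m) (Fin m) ℝ} (hx : x ∈ PSD m) :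
    ∃ (k : ℕ) (v : Fin k → (Fin m → ℝ)), x = ∑ i, sq (v i) := by
  have h : x.PosSemidef := by
    apply Matrix.PosSemidef.of_dotProduct_mulVec_nonneg
    · ext i j
      exact hx.1 j i
    · intro v
      have := hx.2 v
      rw [← qf_eq_dot] at this
      exact this
  obtain ⟨k, v, e⟩ := Matrix.posSemidef_iff_eq_sum_vecMulVec.1 h
  refine ⟨k, v, ?_⟩
  rw [e]
  rfl

lemma pr_nonneg {Q x : Matrix (Fin m) (Fin m) ℝ} (hQ : Q ∈ PSD m) (hx : x ∈ PSD m) :
    0 ≤ pr Q x := by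
  obtain ⟨k, v, rfl⟩ := exists_sum_sq hx
  rw [pr_sum]
  refine Finset.sum_nonneg fun i _ => ?_
  rw [pr_sq]
  exact hQ.2 _

lemma qf_add_mat (Q R : Matrix (Fin m) (Fin m) ℝ) (v : Fin m → ℝ) :
    qf (Q + R) v = qf Q v + qf R v := by
  unfold qf
  rw [← Finset.sum_add_distrib]
  refine Finset.sum_congr rfl fun i _ => ?_
  rw [← Finset.sum_add_distrib]
  refine Finset.sum_congr rfl fun j _ => ?_
  rw [Matrix.add_apply]
  ring

lemma qf_smul (Q : Matrix (Fin m) (Fin m) ℝ) (t : ℝ) (v : Fin m → ℝ) :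
    qf Q (t • v) = t ^ 2 * qf Q v := by
  unfold qf
  rw [Finset.mul_sum]
  refine Finset.sum_congr rfl fun i _ => ?_
  rw [Finset.mul_sum]
  refine Finset.sum_congr rfl fun j _ => ?_
  rw [Pi.smul_apply, Pi.smul_apply, smul_eq_mul, smul_eq_mul]
  ring

/-- the bilinear form -/
def bf (Q : Matrix (Fin m) (Fin m) ℝ) (u v : Fin m → ℝ) : ℝ := ∑ i, ∑ j, Q i j * u i * v j

lemma qf_add {Q : Matrix (Fin m) (Fin m) ℝ} (hs : ∀ i j, Q i j = Q j i) (u v : Fin m → ℝ) :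
    qf Q (u + v) = qf Q u + 2 * bf Q u v + qf Q v := by
  have h1 : bf Q v u = bf Q u v := by
    unfold bf
    rw [Finset.sum_comm]
    refine Finset.sum_congr rfl fun i _ => Finset.sum_congr rfl fun j _ => ?_
    rw [hs j i]
    ring
  have h2 : qf Q (u + v) = qf Q u + bf Q u v + bf Q v u + qf Q v := by
    unfold qf bf
    simp only [← Finset.sum_add_distrib]
    refine Finset.sum_congr rfl fun i _ => Finset.sum_congr rfl fun j _ => ?_
    rw [Pi.add_apply, Pi.add_apply]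
    ring
  rw [h2, h1]
  ring

lemma bf_smul (Q : Matrix (Fin m) (Fin m) ℝ) (t : ℝ) (u v : Fin m → ℝ) :
    bf Q u (t • v) = t * bf Q u v := by
  unfold bf
  rw [Finset.mul_sum]
  refine Finset.sum_congr rfl fun i _ => ?_
  rw [Finset.mul_sum]
  refine Finset.sum_congr rfl fun j _ => ?_
  rw [Pi.smul_apply, smul_eq_mul]
  ring

lemma qf_cont (Q : Matrix (Fin m) (Fin m) ℝ) : Continuous (qf Q) := by
  unfold qf
  fun_prop

lemma qf_zero (Q : Matrix (Fin m) (Fin m) ℝ) : qf Q 0 = 0 := by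
  unfold qf
  simp

lemma bf_single (Q : Matrix (Fin m) (Fin m) ℝ) (i j : Fin m) :
    bf Q (Pi.single i 1) (Pi.single j 1) = Q i j := by
  unfold bf
  rw [Finset.sum_eq_single i, Finset.sum_eq_single j]
  · simp
  · intro b _ hb
    simp [Pi.single_eq_of_ne hb]
  · intro h
    exact absurd (Finset.mem_univ _) h
  · intro b _ hb
    simp [Pi.single_eq_of_ne hb]
  · intro h
    exact absurd (Finset.mem_univ _) h

lemma qf_single (Q : Matrix (Fin m) (Fin m) ℝ) (i : Fin m) : qf Q (Pi.single i 1) = Q i i :=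
  bf_single Q i i

lemma diag_nonneg {Q : Matrix (Fin m) (Fin m) ℝ} (hQ : Q ∈ PSD m) (i : Fin m) : 0 ≤ Q i i := by
  have := hQ.2 (Pi.single i 1)
  rwa [qf_single] at this

/-- entries of semidefinite matrices are bounded by the trace -/
lemma abs_le_trace {Q : Matrix (Fin m) (Fin m) ℝ} (hQ : Q ∈ PSD m) (i j : Fin m) :
    |Q i j| ≤ ∑ k, Q k k := by
  have hi : Q i i ≤ ∑ k, Q k k :=
    Finset.single_le_sum (f := fun k => Q k k) (fun k _ => diag_nonneg hQ k) (Finset.mem_univ i)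
  have hj : Q j j ≤ ∑ k, Q k k :=
    Finset.single_le_sum (f := fun k => Q k k) (fun k _ => diag_nonneg hQ k) (Finset.mem_univ j)
  have h1 := hQ.2 (Pi.single i 1 + Pi.single j 1)
  have h2 := hQ.2 (Pi.single i 1 + (-1 : ℝ) • Pi.single j 1)
  rw [qf_add hQ.1, qf_single, qf_single, bf_single] at h1
  rw [qf_add hQ.1, bf_smul, qf_smul, qf_single, qf_single, bf_single] at h2
  rw [abs_le]
  constructor <;> nlinarith

lemma exists_lower {Q : Matrix (Fin m) (Fin m) ℝ} (hQ : Q ∈ PD m) :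
    ∃ c : ℝ, 0 < c ∧ ∀ v : Fin m → ℝ, c * ∑ i, v i ^ 2 ≤ qf Q v := by
  let S : Set (Fin m → ℝ) := {v | ∑ i, v i ^ 2 = 1}
  have hS : IsCompact S := by
    apply Metric.isCompact_of_isClosed_isBounded
    · exact isClosed_eq (by fun_prop) continuous_const
    · refine (Metric.isBounded_closedBall (x := (0 : Fin m → ℝ)) (r := 1)).subset ?_
      intro v hv
      rw [mem_closedBall_zero_iff, pi_norm_le_iff_of_nonneg zero_le_one]
      intro i
      have h1 : v i ^ 2 ≤ ∑ k, v k ^ 2 :=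
        Finset.single_le_sum (f := fun k => v k ^ 2) (fun k _ => sq_nonneg _) (Finset.mem_univ i)
      have h2 : ∑ k, v k ^ 2 = 1 := hv
      rw [h2] at h1
      rw [Real.norm_eq_abs]
      exact abs_le_one_iff_mul_self_le_one.2 (by nlinarith)
  have key : ∀ c : ℝ, (∀ v ∈ S, c ≤ qf Q v) → ∀ v : Fin m → ℝ, c * ∑ i, v i ^ 2 ≤ qf Q v := by
    intro c hc v
    by_cases hv : v = 0
    · subst hv
      rw [qf_zero]
      simp
    · have hs : 0 < ∑ i, v i ^ 2 := by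
        obtain ⟨i, hi⟩ := Function.ne_iff.1 hv
        have h1 : v i ^ 2 ≤ ∑ k, v k ^ 2 :=
          Finset.single_le_sum (f := fun k => v k ^ 2) (fun k _ => sq_nonneg _) (Finset.mem_univ i)
        have h2 : 0 < v i ^ 2 := by
          have h3 : v i ≠ 0 := hi
          positivity
        linarith
      obtain ⟨s, hs0, hss⟩ : ∃ s : ℝ, 0 < s ∧ s ^ 2 = ∑ i, v i ^ 2 :=
        ⟨√(∑ i, v i ^ 2), Real.sqrt_pos.2 hs, Real.sq_sqrt hs.le⟩
      have hmem : (s⁻¹ • v) ∈ S := by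
        show ∑ i, (s⁻¹ • v) i ^ 2 = 1
        simp only [Pi.smul_apply, smul_eq_mul, mul_pow]
        rw [← Finset.mul_sum, ← hss]
        field_simp
      have h1 := hc _ hmem
      rw [qf_smul] at h1
      rw [← hss]
      have h2 : (s⁻¹) ^ 2 * qf Q v * s ^ 2 = qf Q v := by
        field_simp
      nlinarith [mul_le_mul_of_nonneg_right h1 (sq_nonneg s)]
  by_cases hne : S.Nonempty
  · obtain ⟨v0, hv0, hmin⟩ := hS.exists_isMinOn hne (qf_cont Q).continuousOn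
    refine ⟨qf Q v0, hQ.2 v0 ?_, key _ fun v hv => hmin hv⟩
    rintro rfl
    have : ∑ i : Fin m, (0 : Fin m → ℝ) i ^ 2 = 1 := hv0
    simp at this
  · exact ⟨1, one_pos, key _ fun v hv => absurd ⟨v, hv⟩ hne⟩

lemma PD_sub_PSD {Q : Matrix (Fin m) (Fin m) ℝ} (hQ : Q ∈ PD m) : Q ∈ PSD m := by
  refine ⟨hQ.1, fun v => ?_⟩
  by_cases hv : v = 0
  · rw [hv, qf_zero]
  · exact (hQ.2 v hv).le

lemma pr_one (Q : Matrix (Fin m) (Fin m) ℝ) : pr Q 1 = ∑ k, Q k k := by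
  unfold pr
  refine Finset.sum_congr rfl fun i _ => ?_
  rw [Finset.sum_eq_single i]
  · rw [Matrix.one_apply_eq, mul_one]
  · intro b _ hb
    rw [Matrix.one_apply_ne (Ne.symm hb), mul_zero]
  · intro h
    exact absurd (Finset.mem_univ _) h

lemma pr_smul (Q x : Matrix (Fin m) (Fin m) ℝ) (t : ℝ) : pr Q (t • x) = t * pr Q x := by
  unfold pr
  rw [Finset.mul_sum]
  refine Finset.sum_congr rfl fun i _ => ?_
  rw [Finset.mul_sum]
  refine Finset.sum_congr rfl fun j _ => ?_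
  rw [Matrix.smul_apply, smul_eq_mul]
  ring

lemma qf_one (v : Fin m → ℝ) : qf 1 v = ∑ i, v i ^ 2 := by
  unfold qf
  refine Finset.sum_congr rfl fun i _ => ?_
  rw [Finset.sum_eq_single i]
  · rw [Matrix.one_apply_eq]; ring
  · intro b _ hb
    rw [Matrix.one_apply_ne (Ne.symm hb)]; ring
  · intro h
    exact absurd (Finset.mem_univ _) h

lemma qf_smul_mat (Q : Matrix (Fin m) (Fin m) ℝ) (t : ℝ) (v : Fin m → ℝ) :
    qf (t • Q) v = t * qf Q v := by
  unfold qf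
  rw [Finset.mul_sum]
  refine Finset.sum_congr rfl fun i _ => ?_
  rw [Finset.mul_sum]
  refine Finset.sum_congr rfl fun j _ => ?_
  rw [Matrix.smul_apply, smul_eq_mul]
  ring

lemma exists_bound {x : Matrix (Fin m) (Fin m) ℝ} (hx : x ∈ PD m) :
    ∃ c : ℝ, 0 < c ∧ ∀ Q ∈ PSD m, ∀ i j, c * |Q i j| ≤ pr Q x := by
  obtain ⟨c, hc, h⟩ := exists_lower hx
  refine ⟨c, hc, fun Q hQ i j => ?_⟩
  have h1 : x + (-c) • (1 : Matrix (Fin m) (Fin m) ℝ) ∈ PSD m := by
    constructor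
    · intro i j
      rw [Matrix.add_apply, Matrix.add_apply, Matrix.smul_apply, Matrix.smul_apply, hx.1 i j,
        Matrix.one_apply, Matrix.one_apply]
      simp only [eq_comm]
    · intro v
      rw [qf_add_mat, qf_smul_mat, qf_one]
      have := h v
      linarith
  have h2 := pr_nonneg hQ h1
  rw [pr_add, pr_smul, pr_one] at h2
  have h3 := mul_le_mul_of_nonneg_left (abs_le_trace hQ i j) hc.le
  linarith

lemma qf_abs_le {x : Matrix (Fin m) (Fin m) ℝ} {ε : ℝ} (hε : 0 ≤ ε) (h : ∀ i j, |x i j| ≤ ε)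
    (v : Fin m → ℝ) : |qf x v| ≤ ε * m * ∑ i, v i ^ 2 := by
  have h1 : |qf x v| ≤ ∑ i, ∑ j, ε * ((v i ^ 2 + v j ^ 2) / 2) := by
    unfold qf
    refine (Finset.abs_sum_le_sum_abs _ _).trans (Finset.sum_le_sum fun i _ => ?_)
    refine (Finset.abs_sum_le_sum_abs _ _).trans (Finset.sum_le_sum fun j _ => ?_)
    rw [mul_assoc, abs_mul]
    apply mul_le_mul (h i j) _ (abs_nonneg _) hε
    rw [abs_mul, ← sq_abs (v i), ← sq_abs (v j)]
    nlinarith [sq_nonneg (|v i| - |v j|)]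
  have h2 : ∑ i : Fin m, ∑ j : Fin m, ε * ((v i ^ 2 + v j ^ 2) / 2) = ε * m * ∑ i, v i ^ 2 := by
    simp only [← Finset.mul_sum]
    rw [mul_assoc]
    congr 1
    have h3 : ∀ i : Fin m, ∑ j : Fin m, (v i ^ 2 + v j ^ 2) / 2 =
        (m : ℝ) * (v i ^ 2 / 2) + (∑ j, v j ^ 2) / 2 := by
      intro i
      rw [← Finset.sum_div, Finset.sum_add_distrib, Finset.sum_const, Finset.card_univ,
        Fintype.card_fin, nsmul_eq_mul]
      ring
    simp only [h3]
    rw [Finset.sum_add_distrib, ← Finset.mul_sum, ← Finset.sum_div, Finset.sum_const,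
      Finset.card_univ, Fintype.card_fin, nsmul_eq_mul]
    ring
  rw [h2] at h1
  exact h1

lemma exists_open {Q : Matrix (Fin m) (Fin m) ℝ} (hQ : Q ∈ PD m) :
    ∃ ε : ℝ, 0 < ε ∧ ∀ x : Matrix (Fin m) (Fin m) ℝ, (∀ i j, x i j = x j i) →
      (∀ i j, |x i j| < ε) → Q + x ∈ PD m := by
  obtain ⟨c, hc, h⟩ := exists_lower hQ
  have hm : (0 : ℝ) < (m : ℝ) + 1 := by positivity
  refine ⟨c / (m + 1), by positivity, fun x hs hx => ⟨?_, fun v hv => ?_⟩⟩
  · intro i j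
    rw [Matrix.add_apply, Matrix.add_apply, hQ.1 i j, hs i j]
  · rw [qf_add_mat]
    have h1 := h v
    have h2 := qf_abs_le (ε := c / (m + 1)) (by positivity) (fun i j => (hx i j).le) v
    have hs : 0 < ∑ i, v i ^ 2 := by
      obtain ⟨i, hi⟩ := Function.ne_iff.1 hv
      have h1 : v i ^ 2 ≤ ∑ k, v k ^ 2 :=
        Finset.single_le_sum (f := fun k => v k ^ 2) (fun k _ => sq_nonneg _) (Finset.mem_univ i)
      have h2 : 0 < v i ^ 2 := by
        have h3 : v i ≠ 0 := hi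
        positivity
      linarith
    have h3 := (abs_le.1 h2).1
    have h4 : c / (m + 1) * m < c := by
      rw [div_mul_eq_mul_div, div_lt_iff₀ hm]
      nlinarith
    nlinarith [mul_lt_mul_of_pos_right h4 hs]

lemma qf_kernel {Q : Matrix (Fin m) (Fin m) ℝ} (hQ : Q ∈ PSD m) {w : Fin m → ℝ} (hw : qf Q w = 0)
    (u : Fin m → ℝ) (t : ℝ) : qf Q (u + t • w) = qf Q u := by
  have h : ∀ s : ℝ, 0 ≤ qf Q u + 2 * (s * bf Q u w) := by
    intro s
    have := hQ.2 (u + s • w)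
    rw [qf_add hQ.1, bf_smul, qf_smul, hw] at this
    linarith
  have hb : bf Q u w = 0 := by
    by_contra hne
    have h1 := h (-(qf Q u + 1) / (2 * bf Q u w))
    have h2 : 2 * (-(qf Q u + 1) / (2 * bf Q u w) * bf Q u w) = -(qf Q u + 1) := by
      field_simp
    rw [h2] at h1
    linarith
  rw [qf_add hQ.1, bf_smul, qf_smul, hw, hb]
  ring

/-- simultaneous approximation -/
lemma exists_close (w : Fin m → ℝ) {δ : ℝ} (hδ : 0 < δ) :
    ∃ (k : ℕ) (v : Fin m → ℤ), 1 ≤ k ∧ ∀ i, |(v i : ℝ) - k * w i| < δ := by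
  let x : ℕ → (Fin m → ℝ) := fun k i => Int.fract ((k : ℝ) * w i)
  have hcpt : IsCompact (Set.Icc (0 : Fin m → ℝ) 1) := isCompact_Icc
  have hx : ∀ k, x k ∈ Set.Icc (0 : Fin m → ℝ) 1 := by
    intro k
    exact ⟨fun i => Int.fract_nonneg _, fun i => (Int.fract_lt_one _).le⟩
  obtain ⟨a, _, φ, hφ, hlim⟩ := hcpt.tendsto_subseq hx
  have hc := hlim.cauchySeq
  rw [Metric.cauchySeq_iff] at hc
  obtain ⟨N, hN⟩ := hc δ hδ
  have h1 := hN N le_rfl (N + 1) (Nat.le_succ N)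
  have hlt : φ N < φ (N + 1) := hφ (Nat.lt_succ_self N)
  rw [dist_comm, dist_pi_lt_iff hδ] at h1
  refine ⟨φ (N + 1) - φ N, fun i => ⌊(φ (N + 1) : ℝ) * w i⌋ - ⌊(φ N : ℝ) * w i⌋, by omega,
    fun i => ?_⟩
  have h2 := h1 i
  rw [Real.dist_eq] at h2
  have e : ((⌊(φ (N + 1) : ℝ) * w i⌋ - ⌊(φ N : ℝ) * w i⌋ : ℤ) : ℝ) -
      ((φ (N + 1) - φ N : ℕ) : ℝ) * w i = -((x ∘ φ) (N + 1) i - (x ∘ φ) N i) := by
    show _ = -(Int.fract ((φ (N + 1) : ℝ) * w i) - Int.fract ((φ N : ℝ) * w i))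
    rw [Nat.cast_sub hlt.le]
    unfold Int.fract
    push_cast
    ring
  rw [e, abs_neg]
  exact h2

lemma PSD_one {Q : Matrix (Fin m) (Fin m) ℝ} (hQ : Q ∈ PSD m)
    (h : ∀ v : Fin m → ℤ, v ≠ 0 → 1 ≤ qf Q (rv v)) : Q ∈ PD m := by
  refine ⟨hQ.1, fun w hw => ?_⟩
  by_contra hcon
  have hw0 : qf Q w = 0 := le_antisymm (not_lt.1 hcon) (hQ.2 w)
  obtain ⟨i, hi⟩ := Function.ne_iff.1 hw
  have hi' : w i ≠ 0 := hi
  -- continuity at zero
  obtain ⟨δ, hδ, hδ'⟩ := Metric.continuous_iff.1 (qf_cont Q) 0 1 one_pos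
  obtain ⟨η, hη, hη1, hη2⟩ : ∃ η : ℝ, 0 < η ∧ η < 1 ∧ η < δ := ⟨min 1 δ / 2, by positivity,
    by have := min_le_left 1 δ; linarith, by have := min_le_right 1 δ; linarith⟩
  obtain ⟨k, v, hk, hv⟩ := exists_close (fun j => (w i)⁻¹ * w j) hη
  have hkw : ∀ j, |(v j : ℝ) - k * ((w i)⁻¹ * w j)| < η := hv
  have hvi : v ≠ 0 := by
    rintro rfl
    have h1 := hkw i
    rw [inv_mul_cancel₀ hi', mul_one] at h1
    simp only [Pi.zero_apply, Int.cast_zero, zero_sub, abs_neg, Nat.abs_cast] at h1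
    have : (1 : ℝ) ≤ k := by exact_mod_cast hk
    linarith
  have h2 := h v hvi
  have h3 : qf Q (rv v + (-(k * (w i)⁻¹)) • w) = qf Q (rv v) := qf_kernel hQ hw0 _ _
  rw [← h3] at h2
  have h4 := hδ' (rv v + (-(k * (w i)⁻¹)) • w) (by
    rw [dist_zero_right]
    refine lt_of_le_of_lt ((pi_norm_le_iff_of_nonneg hη.le).2 fun j => ?_) hη2
    rw [Real.norm_eq_abs, Pi.add_apply, Pi.smul_apply, smul_eq_mul]
    have e : rv v j + -(k * (w i)⁻¹) * w j = (v j : ℝ) - k * ((w i)⁻¹ * w j) := by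
      unfold rv
      ring
    rw [e]
    exact (hkw j).le)
  rw [qf_zero, Real.dist_eq, sub_zero, abs_lt] at h4
  linarith [h4.2]

lemma finite_short {Q : Matrix (Fin m) (Fin m) ℝ} (hQ : Q ∈ PD m) (r : ℝ) :
    {v : Fin m → ℤ | qf Q (rv v) ≤ r}.Finite := by
  obtain ⟨c, hc, h⟩ := exists_lower hQ
  obtain ⟨K, hK⟩ := exists_nat_ge (r / c)
  refine (Set.finite_Icc (fun _ : Fin m => (-(K : ℤ))) (fun _ => (K : ℤ))).subset ?_
  intro v hv
  have h1 : c * ∑ i, (rv v i) ^ 2 ≤ r := (h (rv v)).trans hv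
  have h2 : ∀ i, |v i| ≤ (K : ℤ) := by
    intro i
    have h3 : (rv v i) ^ 2 ≤ ∑ k, (rv v k) ^ 2 :=
      Finset.single_le_sum (f := fun k => (rv v k) ^ 2) (fun k _ => sq_nonneg _) (Finset.mem_univ i)
    have h4 : (rv v i) ^ 2 ≤ r / c := by
      rw [le_div_iff₀ hc]
      nlinarith
    have h5 : ((v i ^ 2 : ℤ) : ℝ) ≤ ((K : ℤ) : ℝ) := by
      push_cast
      exact h4.trans hK
    have h6 : v i ^ 2 ≤ (K : ℤ) := by exact_mod_cast h5
    have h7 : |v i| ≤ v i ^ 2 := by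
      rw [← sq_abs]
      rcases eq_or_lt_of_le (abs_nonneg (v i)) with h | h
      · rw [← h]; norm_num
      · nlinarith
    exact h7.trans h6
  exact ⟨fun i => (abs_le.1 (h2 i)).1, fun i => (abs_le.1 (h2 i)).2⟩

theorem t_BAS : S_BAS := fun _ => ⟨pr_sq, fun _ hQ _ hx => pr_nonneg hQ hx,
  fun _ hx => exists_bound hx, fun _ hQ => exists_lower hQ, fun _ hQ => exists_open hQ,
  fun _ hQ h => PSD_one hQ h, fun _ hQ r => finite_short hQ r⟩

end Pool.Agent.L0h69.VO
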