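import Pool.Agent.L0h69.VO.BAS

/-!
# Module RIG: rigidity of invariant cones
-/

set_option autoImplicit false

open scoped Matrix

namespace Pool.Agent.L0h69.VO

open Pool.Agent.L0h16.VO Filter Topology

variable {m : ℕ}

/-- the transvection `1 + t v φᵀ` -/
def trv (t : ℤ) (v φ : Fin m → ℤ) : Matrix (Fin m) (Fin m) ℤ :=
  fun i j => (1 : Matrix (Fin m) (Fin m) ℤ) i j + t * v i * φ j

lemma trv_det (t : ℤ) {v φ : Fin m → ℤ} (h : ∑ i, v i * φ i = 0) : (trv t v φ).det = 1 := by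
  have e : trv t v φ = 1 + Matrix.replicateCol Unit (fun i => t * v i) *
      Matrix.replicateRow Unit φ := by
    ext i j
    rw [Matrix.add_apply, Matrix.mul_apply]
    simp [trv]
  rw [e, Matrix.det_one_add_replicateCol_mul_replicateRow]
  have : φ ⬝ᵥ (fun i => t * v i) = 0 := by
    unfold dotProduct
    have e2 : ∑ i, φ i * (t * v i) = t * ∑ i, v i * φ i := by
      rw [Finset.mul_sum]
      refine Finset.sum_congr rfl fun i _ => ?_
      ring
    rw [e2, h, mul_zero]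
  rw [this, add_zero]

lemma trv_congr (k : ℤ) (N : ℕ) (v φ : Fin m → ℤ) (i j : Fin m) :
    (N : ℤ) ∣ (trv (k * N) v φ - 1) i j := by
  rw [Matrix.sub_apply]
  have e : trv (k * N) v φ i j - (1 : Matrix (Fin m) (Fin m) ℤ) i j = N * (k * v i * φ j) := by
    unfold trv
    ring
  rw [e]
  exact dvd_mul_right _ _

lemma act_trv (t : ℤ) (v φ : Fin m → ℤ) {x : Matrix (Fin m) (Fin m) ℝ} (i j : Fin m) :
    act (trv t v φ) x i j = x i j + t * ((v i : ℝ) * (∑ a, (φ a : ℝ) * x a j) +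
      (v j : ℝ) * ∑ b, x i b * (φ b : ℝ)) + t ^ 2 * qf x (rv φ) * ((v i : ℝ) * (v j : ℝ)) := by
  have e1 : ∀ b, ((trv t v φ).map (Int.cast : ℤ → ℝ) * x) i b =
      x i b + t * v i * ∑ a, (φ a : ℝ) * x a b := by
    intro b
    rw [Matrix.mul_apply]
    have : ∀ a, (trv t v φ).map (Int.cast : ℤ → ℝ) i a * x a b =
        (1 : Matrix (Fin m) (Fin m) ℝ) i a * x a b + t * v i * ((φ a : ℝ) * x a b) := by
      intro a
      rw [Matrix.map_apply]
      unfold trv
      rw [Matrix.one_apply, Matrix.one_apply]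
      split_ifs <;> push_cast <;> ring
    simp only [this]
    rw [Finset.sum_add_distrib, ← Finset.mul_sum, ← Matrix.mul_apply, Matrix.one_mul]
  unfold act
  rw [Matrix.mul_apply]
  have e2 : ∀ b, ((trv t v φ).map (Int.cast : ℤ → ℝ) * x) i b *
      ((trv t v φ).map (Int.cast : ℤ → ℝ))ᵀ b j =
      (x i b + t * v i * ∑ a, (φ a : ℝ) * x a b) * (1 : Matrix (Fin m) (Fin m) ℝ) b j +
        (t * v j * (x i b * φ b) + t ^ 2 * (v i * v j) * (φ b * ∑ a, (φ a : ℝ) * x a b)) := by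
    intro b
    rw [e1, Matrix.transpose_apply, Matrix.map_apply]
    unfold trv
    rw [Matrix.one_apply, Matrix.one_apply]
    by_cases h : j = b
    · rw [if_pos h, if_pos h.symm]; push_cast; ring
    · rw [if_neg h, if_neg (Ne.symm h)]; push_cast; ring
  simp only [e2]
  rw [Finset.sum_add_distrib, Finset.sum_add_distrib, ← Finset.mul_sum, ← Finset.mul_sum]
  have e3 : ∑ b, (x i b + t * v i * ∑ a, (φ a : ℝ) * x a b) *
      (1 : Matrix (Fin m) (Fin m) ℝ) b j = x i j + t * v i * ∑ a, (φ a : ℝ) * x a j := by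
    rw [Finset.sum_eq_single j]
    · rw [Matrix.one_apply_eq, mul_one]
    · intro b _ hb
      rw [Matrix.one_apply_ne hb, mul_zero]
    · intro h
      exact absurd (Finset.mem_univ _) h
  have e4 : ∑ b, (φ b : ℝ) * ∑ a, (φ a : ℝ) * x a b = qf x (rv φ) := by
    unfold qf rv
    simp only [Finset.mul_sum]
    rw [Finset.sum_comm]
    refine Finset.sum_congr rfl fun b _ => Finset.sum_congr rfl fun a _ => ?_
    ring
  rw [e3, e4]
  ring

/-- the limit of the transforms -/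
lemma lim_mem {D : Set (Matrix (Fin m) (Fin m) ℝ)} {N : ℕ} (hN : 1 ≤ N) (hcl : IsClosed D)
    (hsm : ∀ t : ℝ, 0 ≤ t → ∀ x ∈ D, t • x ∈ D)
    (hact : ∀ A : Matrix (Fin m) (Fin m) ℤ, A.det = 1 → (∀ i j, (N : ℤ) ∣ (A - 1) i j) →
      ∀ x ∈ D, act A x ∈ D) {x : Matrix (Fin m) (Fin m) ℝ} (hx : x ∈ D) {v φ : Fin m → ℤ}
    (h : ∑ i, v i * φ i = 0) : qf x (rv φ) • Pool.Agent.L0h16.VO.sq (rv v) ∈ D := by
  have hN' : (0 : ℝ) < N := by exact_mod_cast hN
  have key : ((N : ℝ) ^ 2 * qf x (rv φ)) • Pool.Agent.L0h16.VO.sq (rv v) ∈ D := by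
    let f : ℕ → Matrix (Fin m) (Fin m) ℝ := fun k =>
      (1 / ((k : ℝ) + 1)) ^ 2 • act (trv (((k : ℤ) + 1) * N) v φ) x
    have hf : ∀ k, f k ∈ D := fun k => hsm _ (by positivity) _
      (hact _ (trv_det _ h) (trv_congr _ _ _ _) x hx)
    refine hcl.mem_of_tendsto (f := f) (b := atTop) ?_ (Eventually.of_forall hf)
    refine tendsto_pi_nhds.2 fun i => tendsto_pi_nhds.2 fun j => ?_
    have e : ∀ k : ℕ, f k i j = (1 / ((k : ℝ) + 1)) ^ 2 * x i j + (1 / ((k : ℝ) + 1)) *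
        (N * ((v i : ℝ) * (∑ a, (φ a : ℝ) * x a j) + (v j : ℝ) * ∑ b, x i b * (φ b : ℝ))) +
        (N : ℝ) ^ 2 * qf x (rv φ) * ((v i : ℝ) * (v j : ℝ)) := by
      intro k
      have hk : ((k : ℝ) + 1) ≠ 0 := by positivity
      show (1 / ((k : ℝ) + 1)) ^ 2 * act (trv (((k : ℤ) + 1) * N) v φ) x i j = _
      rw [act_trv]
      push_cast
      field_simp
    have h1 := tendsto_one_div_add_atTop_nhds_zero_nat (𝕜 := ℝ)
    have h2 := (((h1.pow 2).mul_const (x i j)).add (h1.mul_const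
      (N * ((v i : ℝ) * (∑ a, (φ a : ℝ) * x a j) + (v j : ℝ) * ∑ b, x i b * (φ b : ℝ))))).add_const
      ((N : ℝ) ^ 2 * qf x (rv φ) * ((v i : ℝ) * (v j : ℝ)))
    have h3 : (((N : ℝ) ^ 2 * qf x (rv φ)) • Pool.Agent.L0h16.VO.sq (rv v)) i j =
        0 ^ 2 * x i j + 0 * (N * ((v i : ℝ) * (∑ a, (φ a : ℝ) * x a j) +
          (v j : ℝ) * ∑ b, x i b * (φ b : ℝ))) +
        (N : ℝ) ^ 2 * qf x (rv φ) * ((v i : ℝ) * (v j : ℝ)) := by
      rw [Matrix.smul_apply, smul_eq_mul]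
      show (N : ℝ) ^ 2 * qf x (rv φ) * ((v i : ℝ) * (v j : ℝ)) = _
      ring
    rw [h3]
    simp only [e]
    exact h2
  have h2 := hsm (((N : ℝ) ^ 2)⁻¹) (by positivity) _ key
  rw [smul_smul] at h2
  have e : ((N : ℝ) ^ 2)⁻¹ * ((N : ℝ) ^ 2 * qf x (rv φ)) = qf x (rv φ) := by
    field_simp
  rwa [e] at h2

lemma exists_orth (hm : 2 ≤ m) (v : Fin m → ℤ) : ∃ φ : Fin m → ℤ, φ ≠ 0 ∧ ∑ i, v i * φ i = 0 := by
  let i0 : Fin m := ⟨0, by omega⟩
  let i1 : Fin m := ⟨1, by omega⟩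
  have hne : i1 ≠ i0 := by
    intro h
    have := congrArg Fin.val h
    simp [i0, i1] at this
  by_cases h0 : v i0 = 0
  · refine ⟨Pi.single i0 1, ?_, ?_⟩
    · intro h
      have := congrFun h i0
      simp at this
    · rw [Finset.sum_eq_single i0]
      · rw [h0, zero_mul]
      · intro b _ hb
        rw [Pi.single_eq_of_ne hb, mul_zero]
      · intro h
        exact absurd (Finset.mem_univ _) h
  · refine ⟨Pi.single i0 (v i1) + Pi.single i1 (-v i0), ?_, ?_⟩
    · intro h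
      have := congrFun h i1
      rw [Pi.add_apply, Pi.single_eq_of_ne hne, Pi.single_eq_same, zero_add, Pi.zero_apply] at this
      exact h0 (neg_eq_zero.1 this)
    · simp only [Pi.add_apply, mul_add, Finset.sum_add_distrib]
      rw [Finset.sum_eq_single i0, Finset.sum_eq_single i1]
      · rw [Pi.single_eq_same, Pi.single_eq_same]
        ring
      · intro b _ hb
        rw [Pi.single_eq_of_ne hb, mul_zero]
      · intro h
        exact absurd (Finset.mem_univ _) h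
      · intro b _ hb
        rw [Pi.single_eq_of_ne hb, mul_zero]
      · intro h
        exact absurd (Finset.mem_univ _) h

/-- real vectors are limits of scaled integral vectors -/
lemma floor_lim (w : Fin m → ℝ) : Tendsto (fun k : ℕ => (1 / ((k : ℝ) + 1)) •
    rv fun i => ⌊((k : ℝ) + 1) * w i⌋) atTop (𝓝 w) := by
  rw [tendsto_pi_nhds]
  intro i
  have h1 := tendsto_one_div_add_atTop_nhds_zero_nat (𝕜 := ℝ)
  have hlow : Tendsto (fun k : ℕ => w i - 1 / ((k : ℝ) + 1)) atTop (𝓝 (w i)) := by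
    have := h1.const_sub (w i)
    rwa [sub_zero] at this
  refine tendsto_of_tendsto_of_tendsto_of_le_of_le hlow tendsto_const_nhds ?_ ?_
  · intro k
    have hk : (0 : ℝ) < (k : ℝ) + 1 := by positivity
    show w i - 1 / ((k : ℝ) + 1) ≤ 1 / ((k : ℝ) + 1) * (⌊((k : ℝ) + 1) * w i⌋ : ℝ)
    have h2 := Int.sub_one_lt_floor (((k : ℝ) + 1) * w i)
    rw [div_mul_eq_mul_div, one_mul, le_div_iff₀ hk, sub_mul, one_div, inv_mul_cancel₀ hk.ne']
    linarith
  · intro k
    have hk : (0 : ℝ) < (k : ℝ) + 1 := by positivity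
    show 1 / ((k : ℝ) + 1) * (⌊((k : ℝ) + 1) * w i⌋ : ℝ) ≤ w i
    have h2 := Int.floor_le (((k : ℝ) + 1) * w i)
    rw [div_mul_eq_mul_div, one_mul, div_le_iff₀ hk]
    linarith

lemma sq_smul' (t : ℝ) (v : Fin m → ℝ) : Pool.Agent.L0h16.VO.sq (t • v) =
    t ^ 2 • Pool.Agent.L0h16.VO.sq v := by
  ext i j
  show (t * v i) * (t * v j) = t ^ 2 * (v i * v j)
  ring

lemma sq_cont : Continuous (Pool.Agent.L0h16.VO.sq (m := m)) := by
  refine continuous_pi fun i => continuous_pi fun j => ?_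
  show Continuous fun v : Fin m → ℝ => v i * v j
  fun_prop

theorem t_RIG : S_RIG := by
  intro _ m hm N hN D hsym hcl hadd hsm hpt hact ⟨x0, hx0, hx0'⟩
  have h0 : (0 : Matrix (Fin m) (Fin m) ℝ) ∈ D := by
    have := hsm 0 le_rfl x0 hx0
    rwa [zero_smul] at this
  have hint : ∀ v : Fin m → ℤ, Pool.Agent.L0h16.VO.sq (rv v) ∈ D := by
    intro v
    obtain ⟨φ, hφ, hvφ⟩ := exists_orth hm v
    have h1 := lim_mem hN hcl hsm hact hx0 hvφ
    have hrv : rv φ ≠ 0 := by
      intro h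
      apply hφ
      funext i
      have := congrFun h i
      have h2 : ((φ i : ℤ) : ℝ) = 0 := this
      exact_mod_cast h2
    have h2 := hx0'.2 _ hrv
    have h3 := hsm (qf x0 (rv φ))⁻¹ (by positivity) _ h1
    rwa [smul_smul, inv_mul_cancel₀ h2.ne', one_smul] at h3
  have hreal : ∀ w : Fin m → ℝ, Pool.Agent.L0h16.VO.sq w ∈ D := by
    intro w
    have h1 := (sq_cont.tendsto w).comp (floor_lim w)
    refine hcl.mem_of_tendsto h1 (Eventually.of_forall fun k => ?_)
    show Pool.Agent.L0h16.VO.sq ((1 / ((k : ℝ) + 1)) • rv fun i => ⌊((k : ℝ) + 1) * w i⌋) ∈ D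
    rw [sq_smul']
    exact hsm _ (by positivity) _ (hint _)
  apply Set.Subset.antisymm
  · intro d hd
    refine ⟨hsym d hd, fun w => ?_⟩
    by_contra hneg
    rw [not_le] at hneg
    have h1 := ((qf_cont d).tendsto w).comp (floor_lim w)
    have h2 := h1.eventually (gt_mem_nhds hneg)
    obtain ⟨k, hk⟩ := h2.exists
    change qf d ((1 / ((k : ℝ) + 1)) • rv fun i => ⌊((k : ℝ) + 1) * w i⌋) < 0 at hk
    rw [qf_smul] at hk
    have hneg' : qf d (rv fun i => ⌊((k : ℝ) + 1) * w i⌋) < 0 := by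
      by_contra hcon
      rw [not_lt] at hcon
      have : 0 ≤ (1 / ((k : ℝ) + 1)) ^ 2 * qf d (rv fun i => ⌊((k : ℝ) + 1) * w i⌋) := by
        positivity
      linarith
    set φ : Fin m → ℤ := fun i => ⌊((k : ℝ) + 1) * w i⌋ with hφ
    obtain ⟨v, hv, hvφ⟩ := exists_orth hm φ
    have hvφ' : ∑ i, v i * φ i = 0 := by
      rw [← hvφ]
      exact Finset.sum_congr rfl fun i _ => mul_comm _ _
    have h3 := lim_mem hN hcl hsm hact hd hvφ'
    have h4 := hsm (-(qf d (rv φ)))⁻¹ (by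
      rw [inv_nonneg]
      linarith) _ h3
    rw [smul_smul] at h4
    have e : (-(qf d (rv φ)))⁻¹ * qf d (rv φ) = -1 := by
      have : qf d (rv φ) ≠ 0 := hneg'.ne
      field_simp
    rw [e, neg_one_smul] at h4
    have h5 := hpt _ (hint v) h4
    apply hv
    funext i
    have h6 := congrFun (congrFun h5 i) i
    have h7 : ((v i : ℤ) : ℝ) * ((v i : ℤ) : ℝ) = 0 := h6
    have h8 := mul_self_eq_zero.1 h7
    exact_mod_cast h8
  · intro x hx
    obtain ⟨k, v, rfl⟩ := exists_sum_sq hx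
    have hs : ∀ s : Finset (Fin k), ∑ i ∈ s, Pool.Agent.L0h16.VO.sq (v i) ∈ D := by
      intro s
      induction s using Finset.induction_on with
      | empty => rw [Finset.sum_empty]; exact h0
      | insert a s ha ih =>
        rw [Finset.sum_insert ha]
        exact hadd _ (hreal _) _ ih
    exact hs _

end Pool.Agent.L0h69.VO
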